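import Mathlib

set_option autoImplicit false

namespace Pool.Agent.Results.MP_1cad20_al.LeftDischinger

open Polynomial

/-- `pw a n` is the power `a ^ (n + 1)` in a ring without identity. -/
def pw {R : Type*} [NonUnitalRing R] (a : R) : ℕ → R
  | 0 => a
  | n + 1 => pw a n * a

/-- For every `a` some left ideal `R a ^ m` (`m ≥ 1`) is closed under right multiplication. -/
def WeaklyLeftDuo (R : Type*) [NonUnitalRing R] : Prop :=
  ∀ a : R, ∃ n : ℕ, ∀ r s : R, ∃ r' : R, r * pw a n * s = r' * pw a n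

theorem pw_coe {R S : Type*} [NonUnitalRing R] [Ring S] (ι : R →ₙ+* S) (a : R) (n : ℕ) :
    ι (pw a n) = ι a ^ (n + 1) := by
  induction n with
  | zero => simp [pw]
  | succ n ih => rw [pw, map_mul, ih, ← pow_succ]

theorem pw_idem {R : Type*} [NonUnitalRing R] (e : R) (he : e * e = e) (n : ℕ) : pw e n = e := by
  induction n with
  | zero => rfl
  | succ n ih => rw [pw, ih, he]

theorem pw_mul {R : Type*} [NonUnitalRing R] (t a : R) (h : t * a = 0) (n : ℕ) :
    pw t n * a = 0 := by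
  cases n with
  | zero => exact h
  | succ n => rw [pw, mul_assoc, h, mul_zero]

theorem idem {R : Type*} [NonUnitalRing R] (h : WeaklyLeftDuo R) (e : R) (he : e * e = e)
    (s : R) : e * s = e * s * e := by
  obtain ⟨n, hn⟩ := h e
  obtain ⟨r, hr⟩ := hn e s
  rw [pw_idem e he, he] at hr
  rw [hr, mul_assoc, he]

theorem poly (N : ℕ) : ∃ E q w v : ℤ[X], E * (1 - E) = (X * (1 - X)) ^ (N + 1) * q ∧
    E = w * X ∧ 1 - E = v * (1 - X) := by
  obtain ⟨k, hk⟩ := one_sub_dvd_one_sub_pow (X : ℤ[X]) (N + 1)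
  obtain ⟨l, hl⟩ := one_sub_dvd_one_sub_pow (1 - (X : ℤ[X]) ^ (N + 1)) (N + 1)
  refine ⟨1 - (1 - X ^ (N + 1)) ^ (N + 1), l * k ^ (N + 1), X ^ N * l,
    (1 - X) ^ N * k ^ (N + 1), ?_, ?_, ?_⟩
  · rw [sub_sub_cancel, hl, sub_sub_cancel]
    rw [hk, mul_pow, mul_pow]; ring
  · rw [hl]; ring
  · rw [sub_sub_cancel, hk, mul_pow]; ring

theorem aux {R S : Type*} [NonUnitalRing R] [Ring S] (ι : R →ₙ+* S) (hι : Function.Injective ι)
    (hid : ∀ (z : S) (x : R), ∃ u : R, ι u = z * ι x) (h : WeaklyLeftDuo R)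
    (a x : R) (ha : a = x * (a * a)) : ∃ y : R, a = a * a * y := by
  obtain ⟨c, hc⟩ : ∃ c, c = x * a := ⟨_, rfl⟩
  have hca : c * a = a := by rw [hc, mul_assoc, ← ha]
  obtain ⟨t, ht⟩ : ∃ t, t = c - c * c := ⟨_, rfl⟩
  have hta : t * a = 0 := by rw [ht, sub_mul, mul_assoc, hca, hca, sub_self]
  obtain ⟨n, hn⟩ := h t
  obtain ⟨r, hr⟩ := hn t (x - c * x)
  have h1 : t * pw t n * t = 0 := by
    have : t = (x - c * x) * a := by rw [ht, sub_mul, mul_assoc c x a, ← hc]
    calc t * pw t n * t = t * pw t n * ((x - c * x) * a) := by rw [← this]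
      _ = r * (pw t n * a) := by rw [← mul_assoc, hr, mul_assoc]
      _ = 0 := by rw [pw_mul t a hta, mul_zero]
  have h2 : ι t ^ (n + 2 + 1) = 0 := by
    have := congrArg ι h1
    simp only [map_mul, pw_coe, map_zero] at this
    rw [← this, ← pow_succ', ← pow_succ]
  obtain ⟨E, q, w, v, e1, e2, e3⟩ := poly (n + 2)
  obtain ⟨φ, hφ⟩ : ∃ φ : ℤ[X] →+* S, φ X = ι c :=
    ⟨eval₂RingHom' (Int.castRingHom _) (ι c) (fun m => Int.cast_commute m _), eval₂_X _ _⟩
  have htφ : φ (X * (1 - X)) = ι t := by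
    rw [map_mul, map_sub, map_one, hφ, ht, map_sub, map_mul, mul_sub, mul_one]
  have hE : φ E * φ E = φ E := by
    have := congrArg φ e1
    rw [map_mul φ _ q, map_pow, htφ, h2, zero_mul, map_mul, map_sub, map_one, mul_sub, mul_one,
      sub_eq_zero] at this
    exact this.symm
  have hEa : φ E * ι a = ι a := by
    have h3 := congrArg (fun z => φ z * ι a) e3
    simp only [map_sub, map_one, map_mul, hφ] at h3
    rw [mul_assoc, sub_mul, sub_mul, one_mul, ← map_mul ι, hca, sub_self, mul_zero,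
      sub_eq_zero] at h3
    exact h3.symm
  obtain ⟨u, hu⟩ := hid (φ w) x
  have hEu : φ E = ι (u * a) := by
    rw [e2, map_mul, hφ, hc, map_mul, map_mul, hu, mul_assoc]
  rw [hEu, ← map_mul] at hE hEa
  have hE' := hι hE
  have hEa' := hι hEa
  obtain ⟨e, he⟩ : ∃ e, e = u * a := ⟨_, rfl⟩
  rw [← he] at hE' hEa'
  have hae : a * e = a := by
    have := idem h e hE' a
    rw [hEa'] at this
    exact this.symm
  obtain ⟨w', hw'⟩ : ∃ w', w' = e * u := ⟨_, rfl⟩
  have hwa : w' * a = e := by rw [hw', mul_assoc, ← he, hE']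
  have hew : e * w' = w' := by rw [hw', ← mul_assoc, hE']
  have hwe : w' * e = w' := by
    rw [hw']
    exact (idem h e hE' u).symm
  obtain ⟨g, hg⟩ : ∃ g, g = e - a * w' := ⟨_, rfl⟩
  have hga : g * a = 0 := by rw [hg, sub_mul, hEa', mul_assoc, hwa, hae, sub_self]
  have hge : g * e = g := by rw [hg, sub_mul, hE', mul_assoc, hwe]
  have hgg : g * g = g := by
    calc g * g = g * e - g * a * w' := by rw [mul_assoc, ← mul_sub, ← hg]
      _ = g := by rw [hge, hga, zero_mul, sub_zero]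
  have hg0 : g = 0 := by
    calc g = g * w' * a := by rw [mul_assoc, hwa, hge]
      _ = g * w' * g * a := by rw [← idem h g hgg w']
      _ = 0 := by rw [mul_assoc, hga, mul_zero]
  refine ⟨w', ?_⟩
  rw [hg, sub_eq_zero] at hg0
  rw [mul_assoc, ← hg0, hae]

/-- Every weakly left duo ring (identity not assumed) is left Dischinger. -/
theorem result (R : Type*) [NonUnitalRing R] (h : WeaklyLeftDuo R)
    (a x : R) (ha : a = x * (a * a)) :
    (∃ y : R, a = a * a * y) ∧ ∃ y : R, a = y * (a * a) := by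
  refine ⟨aux (R := R) (S := Unitization ℤ R)
    { toFun := fun r => (r : Unitization ℤ R)
      map_mul' := Unitization.inr_mul ℤ
      map_zero' := Unitization.inr_zero ℤ
      map_add' := Unitization.inr_add ℤ }
    Unitization.inr_injective ?_ h a x ha, x, ha⟩
  intro z y
  refine ⟨z.fst • y + z.snd * y, ?_⟩
  change ((z.fst • y + z.snd * y : R) : Unitization ℤ R) = z * (y : Unitization ℤ R)
  ext
  · simp [Unitization.fst_mul]
  · simp only [Unitization.snd_mul, Unitization.snd_inr, Unitization.fst_inr, zero_smul, add_zero]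

end Pool.Agent.Results.MP_1cad20_al.LeftDischinger
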